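import Mathlib
import Pool.Agent.Helper40.TMA.Exotic

/-!
# Thin moving averages characterise the known extreme traces

`G` is the group generated by `x ↦ 2x`, `x ↦ 3x`, `x ↦ x + 1`, `τ` is the translation by one,
`φ` an extreme trace, and `μ` the probability measure on the circle with Fourier coefficients
`φ (τ ^ m)`.  Whether `φ` is regular or conditionally finite dimensional is decided by the
moving averages of the characters over the thin boxes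
`{2 ^ j 3 ^ k : j < q / 200, k < 2 ^ q}` along the orbit `x, 2 x, 4 x, ...`.
-/

set_option autoImplicit false
open scoped ComplexOrder InnerProductSpace
open Filter MeasureTheory Finset Helper17.FU Helper17.FUGroup Helper91.TTT

namespace Pool.Agent.Results.MP_81910f_an.MovingAverages

/-- average of the character `x ↦ e^{2 π i m x}` over the points `2 ^ j 3 ^ k x`, `j < M`,
`k < N` -/
noncomputable def boxAvg (M N : ℕ) (m : ℤ) (x : AddCircle (1 : ℝ)) : ℂ :=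
  (∑ j ∈ range M, ∑ k ∈ range N, (fourier (m * (2 ^ j * 3 ^ k)) x : ℂ)) / (M * N)

/-- **Thin moving averages.**  For an extreme trace `φ` the following are equivalent: `φ` is the
regular trace or conditionally finite dimensional; almost everywhere the averages of every
character over the boxes `q / 200` times `2 ^ q` at the points `2 ^ i x`, `i ≤ 2 ^ q`, converge,
uniformly in `i`; the same for boxes `M q` times `2 ^ q` with some `1 ≤ M q ≤ q / 200`; the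
probabilities that the average over the box deviates are summable with the weight `2 ^ q / q`; the
same for boxes `M q` times `2 ^ q`. -/
theorem result :
  ∀ (s2 s3 t : Equiv.Perm ℚ), (∀ x : ℚ, s2 x = 2 * x) → (∀ x : ℚ, s3 x = 3 * x) →
  (∀ x : ℚ, t x = x + 1) →
  ∀ (G : Subgroup (Equiv.Perm ℚ)), G = Subgroup.closure {s2, s3, t} →
  ∀ τ : G, (τ : Equiv.Perm ℚ) = t →
  ∀ φ : G → ℂ,
    φ ∈ Set.extremePoints ℝ {ψ : G → ℂ | ψ 1 = 1 ∧ (∀ g h : G, ψ (h * g * h⁻¹) = ψ g) ∧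
        ∀ (s : Finset G) (c : G → ℂ), 0 ≤ ∑ i ∈ s, ∑ j ∈ s, star (c j) * c i * ψ (j⁻¹ * i)} →
  ∃ μ : Measure (AddCircle (1 : ℝ)), IsProbabilityMeasure μ ∧
    (∀ m : ℤ, ∫ x, (fourier m x : ℂ) ∂μ = φ (τ ^ m)) ∧
  List.TFAE [
    φ = Set.indicator ({1} : Set G) (fun _ => (1 : ℂ)) ∨
      FiniteDimensional ℂ (Submodule.span ℂ {F : G → ℂ | ∃ n : G,
        (∃ r : ℚ, ∀ x : ℚ, (n : Equiv.Perm ℚ) x = x + r) ∧ F = fun x => φ (n * x)}),
    ∀ m : ℕ, 1 ≤ m → ∀ᵐ x ∂μ, ∀ ε : ℝ, 0 < ε → ∃ Q : ℕ, ∀ q, Q ≤ q → ∀ i, i ≤ 2 ^ q →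
      ‖boxAvg (q / 200) (2 ^ q) m ((2 ^ i : ℕ) • x) - φ (τ ^ m)‖ ≤ ε,
    ∃ M : ℕ → ℕ, (∀ q : ℕ, 200 ≤ q → 1 ≤ M q ∧ 200 * M q ≤ q) ∧
      ∀ m : ℕ, 1 ≤ m → ∀ᵐ x ∂μ, ∀ ε : ℝ, 0 < ε → ∃ Q : ℕ, ∀ q, Q ≤ q → ∀ i, i ≤ 2 ^ q →
        ‖boxAvg (M q) (2 ^ q) m ((2 ^ i : ℕ) • x) - φ (τ ^ m)‖ ≤ ε,
    ∀ m : ℕ, 1 ≤ m → ∀ η : ℝ, 0 < η → Summable fun q : ℕ =>
      (2 ^ q / q : ℝ) * μ.real {x | η < ‖boxAvg (q / 200) (2 ^ q) m x - φ (τ ^ m)‖},
    ∃ M : ℕ → ℕ, (∀ q : ℕ, 200 ≤ q → 1 ≤ M q ∧ 200 * M q ≤ q) ∧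
      ∀ m : ℕ, 1 ≤ m → ∀ η : ℝ, 0 < η → Summable fun q : ℕ =>
        (2 ^ q / q : ℝ) * μ.real {x | η < ‖boxAvg (M q) (2 ^ q) m x - φ (τ ^ m)‖}] := by
  intro s2 s3 t h2 h3 ht G hG τ hτ φ hφ
  subst hG
  have hφ' : φ ∈ Set.extremePoints ℝ (TR (GG s2 s3 t)) := hφ
  obtain ⟨μ, hμp, hμ, hm2, hm3⟩ := Pool.Agent.Helper40.TMA.exists_measure h2 h3 ht hτ hφ'
  have hbox : ∀ (M N : ℕ) (m : ℤ), boxAvg M N m = Pool.Agent.Helper61.FR.cavg M N m :=
    fun _ _ _ => rfl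
  have hM200 : ∀ q : ℕ, 200 ≤ q → 1 ≤ q / 200 ∧ 200 * (q / 200) ≤ q := fun q hq => by omega
  have hint : ∀ m : ℕ, ∫ x, (fourier (m : ℤ) x : ℂ) ∂μ = φ (τ ^ m) := fun m => by
    rw [hμ, zpow_natCast]
  refine ⟨μ, hμp, hμ, ?_⟩
  tfae_have 1 → 4 := by
    intro hk m hm η hη
    have h5 := Pool.Agent.Helper40.TMA.summable_of_known h2 h3 ht hτ hφ' hμ hm2 hm3 hk m hm η hη
    rw [hint] at h5
    exact h5
  tfae_have 4 → 2 := by
    intro hs m hm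
    have h5 := Pool.Agent.Helper61.FR.circle_moving hm2 hm3 m (fun η hη => by
      rw [hint]
      exact hs m hm η hη)
    rw [hint] at h5
    exact h5
  tfae_have 2 → 3 := fun hs => ⟨fun q => q / 200, hM200, hs⟩
  tfae_have 3 → 1 := by
    rintro ⟨M, hM, hs⟩
    by_contra hcon
    push Not at hcon
    obtain ⟨hΔ, hfd⟩ := hcon
    refine Pool.Agent.Helper40.TMA.false_of_zero h2 h3 ht hτ hφ' hμ hΔ hfd ?_
    exact Pool.Agent.Helper61.FR.circle_forward hm2 hm3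
      (Pool.Agent.Helper40.TMA.no_atoms_of_exotic h2 h3 ht hτ hφ' hμ hΔ hfd) M hM (fun m hm => by
        rw [hint]
        exact hs m hm)
  tfae_have 4 → 5 := fun hs => ⟨fun q => q / 200, hM200, hs⟩
  tfae_have 5 → 1 := by
    rintro ⟨M, hM, hs⟩
    by_contra hcon
    push Not at hcon
    obtain ⟨hΔ, hfd⟩ := hcon
    refine Pool.Agent.Helper40.TMA.false_of_zero h2 h3 ht hτ hφ' hμ hΔ hfd ?_
    exact Pool.Agent.Helper61.FR.circle hm2 hm3
      (Pool.Agent.Helper40.TMA.no_atoms_of_exotic h2 h3 ht hτ hφ' hμ hΔ hfd) M hM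
      (fun m hm η hη => by
        rw [hint]
        exact hs m hm η hη)
  tfae_finish

end Pool.Agent.Results.MP_81910f_an.MovingAverages
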